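import Pool.Agent.Helper60.LT.D1
import Pool.Agent.Helper75.TW.R3

/-!
# QL (MP_fb29e9_nt): the disc, almost every lattice, the twentieth moment. Definitions

Frames `f = (e₁, e₂)` as in Helper60.LT (`Fr`, `Tf`, `xf`, `yf`, `df`, `vf`, `fr`); sectors of the `k`-plane: `k.1 > 0`, `τ = k.2 / k.1 - t₀`, `|τ| ≤ w` (`uu 0 k = k.1`, `tt 0 k = k.2 / k.1`).
`A = (A₂, A₃, A₄)`: coordinates of the quadratic form of the frame `(e₁ + t₀ e₂, e₂)`: with its `T, x, y`: `A₂ = T y²/2`, `A₃ = - x A₂`, `A₄ = A₂ (x² - y²/4)`. Then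
`|k₁ e₁ + k₂ e₂| = k₁ · T √((1 + x τ)² + y² τ²) = k₁ (T + T x τ + A₂ τ² + A₃ τ³ + A₄ τ⁴ + er A τ)`.
-/

open MeasureTheory Real Set Filter Topology

set_option autoImplicit false

namespace Pool.Agent.Helper60.QL

open Pool.Agent.Helper22.AE
open Pool.Agent.Helper92.GC (dt tp Tq uu tt arc dd)
open Pool.Agent.Helper75.TW (m20 IsMul20)
open Pool.Agent.Helper60.LT (Fr Tf xf yf df vf fr)

/-- `ℝ³` -/
abbrev R3 : Type := ℝ × ℝ × ℝ

/-- the shear of the form with coordinates `A` -/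
noncomputable def xA (A : R3) : ℝ := -A.2.1 / A.1

/-- the squared height of the form with coordinates `A` -/
noncomputable def sA (A : R3) : ℝ := 4 * (A.2.1 ^ 2 - A.2.2 * A.1) / A.1 ^ 2

/-- the size of the form with coordinates `A` -/
noncomputable def TA (A : R3) : ℝ := 2 * A.1 / sA A

/-- the phase `T √((1 + x τ)² + y² τ²)` -/
noncomputable def pA (A : R3) (τ : ℝ) : ℝ := TA A * √((1 + xA A * τ) ^ 2 + sA A * τ ^ 2)

/-- the remainder after the terms of order at most four -/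
noncomputable def er (A : R3) (τ : ℝ) : ℝ := pA A τ - (TA A + TA A * xA A * τ + A.1 * τ ^ 2 + A.2.1 * τ ^ 3 + A.2.2 * τ ^ 4)

/-- the region of the forms of size `X`: bounded by `B X`, nondegenerate -/
def OM (B X : ℝ) : Set R3 :=
  {A | X ≤ B * A.1 ∧ A.1 ≤ B * X ∧ |A.2.1| ≤ B * X ∧ |A.2.2| ≤ B * X ∧ X ^ 2 ≤ B * (A.2.1 ^ 2 - A.2.2 * A.1)}

/-- the box with corner `A` and side `Y` -/
def bx (A : R3) (Y : ℝ) : Set R3 := Icc A.1 (A.1 + Y) ×ˢ Icc A.2.1 (A.2.1 + Y) ×ˢ Icc A.2.2 (A.2.2 + Y)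

/-- the cube with centre `A` and half side `Y` -/
def cb (A : R3) (Y : ℝ) : Set R3 := Icc (A.1 - Y) (A.1 + Y) ×ˢ Icc (A.2.1 - Y) (A.2.1 + Y) ×ˢ Icc (A.2.2 - Y) (A.2.2 + Y)

/-- the linear phase `u (R₁ τ² + R₂ τ³ + R₃ τ⁴)`, `u = k.1`, `τ = k.2/k.1 - t₀` -/
noncomputable def ln (t₀ : ℝ) (R : R3) (k : ℤ × ℤ) : ℝ :=
  uu 0 k * (R.1 * (tt 0 k - t₀) ^ 2 + R.2.1 * (tt 0 k - t₀) ^ 3 + R.2.2 * (tt 0 k - t₀) ^ 4)

/-- the twentieth moment of the linear family -/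
noncomputable def lf (t₀ : ℝ) (S : Finset (ℤ × ℤ)) (a : ℤ × ℤ → ℂ) (R : R3) : ℝ := m20 S (fun k => a k * ee (ln t₀ R k))

/-- the twentieth moment of the family of forms -/
noncomputable def qf (t₀ : ℝ) (S : Finset (ℤ × ℤ)) (A : R3) : ℝ := m20 S (fun k => ee (uu 0 k * pA A (tt 0 k - t₀)))

/-- the euclidean norm of a vector of the plane -/
noncomputable def nm (v : ℝ × ℝ) : ℝ := √(v.1 ^ 2 + v.2 ^ 2)

/-- the twentieth moment of a frame -/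
noncomputable def ff (S : Finset (ℤ × ℤ)) (f : Fr) : ENNReal := ENNReal.ofReal (m20 S (fun k => ee (nm (vf f k))))

/-- the frames of size `X` -/
def UB (B X : ℝ) : Set Fr :=
  {f | |f.1.1| ≤ B * X ∧ |f.1.2| ≤ B * X ∧ |f.2.1| ≤ B * X ∧ |f.2.2| ≤ B * X ∧ X ^ 2 ≤ B * |df f|}

/-- the integral of the twentieth moment over the frames of size `X` -/
noncomputable def II (B X : ℝ) (S : Finset (ℤ × ℤ)) : ENNReal := ∫⁻ f in UB B X, ff S f

/-- the coordinates of a frame relative to the slope `t₀` -/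
noncomputable def Af (t₀ : ℝ) (f : Fr) : R3 :=
  let g : Fr := ((f.1.1 + t₀ * f.2.1, f.1.2 + t₀ * f.2.2), f.2)
  let a : ℝ := Tf g * yf g ^ 2 / 2
  (a, -(xf g * a), a * (xf g ^ 2 - yf g ^ 2 / 4))

/-- the frequencies of the cone: `H/lam ≤ k.1 ≤ lam H`, `|k.2| ≤ 2 k.1` -/
def Cone (H lam : ℝ) (S : Finset (ℤ × ℤ)) : Prop :=
  ∀ k ∈ S, H / lam ≤ (k.1 : ℝ) ∧ (k.1 : ℝ) ≤ lam * H ∧ |(k.2 : ℝ)| ≤ 2 * k.1

end Pool.Agent.Helper60.QL
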