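import Pool.Agent.Helper65.QL.Cpt

/-!
# QL: the twentieth moment theorem (`mom_disc` of helper65, the name of the plan)
-/

set_option autoImplicit false

namespace Pool.Agent.Helper60.QL

open Pool.Agent.Helper75.TW (J20 MomF)

/-- the twentieth moment over compact sets of frames -/
theorem mom_cpt20 : MomF J20 F20q (fun h => h = nm) 0 (1 / 3) := mom_disc

end Pool.Agent.Helper60.QL
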